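import Mathlib
import Pool.Agent.R365.AK.AffExc
import Pool.Agent.R365.AK.Frac
import Pool.Agent.TH402.AK.Count

/-!
# The exceptional triples of Gaussian integers at every level
-/

set_option autoImplicit false

namespace Pool.Agent.Results.MP_dc323a_nt.ExceptionsAtEveryLevel

/-- `max {|a|, |b|, |a + b|}` -/
noncomputable def size (a b : GaussianInt) : ℝ :=
  max ‖GaussianInt.toComplex a‖ (max ‖GaussianInt.toComplex b‖ ‖GaussianInt.toComplex (a + b)‖)

/-- `rad(n)`: the product of `|Q|` over the Gaussian primes `Q` dividing `n`, one from each class of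
associates, namely the one with `Re Q > 0` and `Im Q ≥ 0` -/
noncomputable def rad (n : GaussianInt) : ℝ :=
  ∏ᶠ Q ∈ {Q : GaussianInt | Prime Q ∧ Q ∣ n ∧ (0 < Q.re ∧ 0 ≤ Q.im)}, ‖GaussianInt.toComplex Q‖

/-- the pairs `(a, b)` of coprime Gaussian integers with `a b c ≠ 0`, `c = a + b`,
`max {|a|, |b|, |c|} ≤ X` and `rad(abc) ≤ B max {|a|, |b|, |c|} ^ lam` -/
def Exceptions (B lam X : ℝ) : Set (GaussianInt × GaussianInt) :=
  {p | p.1 ≠ 0 ∧ p.2 ≠ 0 ∧ p.1 + p.2 ≠ 0 ∧ IsCoprime p.1 p.2 ∧ size p.1 p.2 ≤ X ∧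
    rad (p.1 * p.2 * (p.1 + p.2)) ≤ B * size p.1 p.2 ^ lam}

/-- the exponent, a continuous piecewise linear function on `(0, 3]` -/
noncomputable def F (t : ℝ) : ℝ :=
  if t ≤ 7 / 15 then 4 * t / 7
  else if t ≤ 1 then (19 * t + 1) / 37
  else if t ≤ 9 / 7 then 5 * (9 * t - 1) / 74
  else if t ≤ 3 / 2 then 5 * t / 9
  else if t ≤ 5 / 3 then t - 2 / 3
  else if t ≤ 2 then 1
  else t - 1

open Pool.Agent.TH402.AK Pool.Agent.TH876.Loc in
theorem log_rad {p : GaussianInt × GaussianInt} (h : GTri p) :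
    2 * Real.log (rad (p.1 * p.2 * (p.1 + p.2))) = Real.log (nn (sp (pt (e p.1) (e p.2)))) := by
  rw [← rad_tri h.tri, Real.log_pow]
  norm_num
  rfl

open Pool.Agent.TH402.AK Pool.Agent.TH876.Loc in
theorem one_le_rad {p : GaussianInt × GaussianInt} (h1 : GTri p) :
    1 ≤ rad (p.1 * p.2 * (p.1 + p.2)) := by
  have h2 := rad_tri h1.tri
  have h3 := one_le_nn (sp (pt (e p.1) (e p.2)))
  rw [← h2] at h3
  have h4 : 0 ≤ rad (p.1 * p.2 * (p.1 + p.2)) := rad_pos _
  by_contra h5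
  rw [not_le] at h5
  have h6 : Pool.Agent.TH402.AK.rad (p.1 * p.2 * (p.1 + p.2)) ^ 2 < 1 :=
    pow_lt_one₀ h4 h5 (by norm_num)
  linarith

open Pool.Agent.TH402.AK in
theorem pid4 : IsPrincipalIdealRing (NumberField.RingOfIntegers K4) :=
  IsPrincipalIdealRing.of_surjective e.toRingHom e.surjective

open Pool.Agent.TH402.AK Pool.Agent.TH876.Loc in
theorem exists_gauss {x : K4} (hx : Pt x) : ∃ p : GaussianInt × GaussianInt, GTri p ∧
    phi p = x := by
  obtain ⟨a, b, hab, h⟩ := Pool.Agent.R365.AK.exists_tri pid4 hx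
  refine ⟨(e.symm a, e.symm b), ⟨?_, ?_, ?_, ?_⟩, ?_⟩
  · exact (map_ne_zero_iff e.symm e.symm.injective).2 hab.a0
  · exact (map_ne_zero_iff e.symm e.symm.injective).2 hab.b0
  · show e.symm a + e.symm b ≠ 0
    rw [← map_add]
    exact (map_ne_zero_iff e.symm e.symm.injective).2 hab.c0
  · exact hab.cop.map e.symm.toRingHom
  · show pt (e (e.symm a)) (e (e.symm b)) = x
    rw [RingEquiv.apply_symm_apply, RingEquiv.apply_symm_apply]
    exact h

open Pool.Agent.TH402.AK Pool.Agent.TH876.Loc in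
/-- the condition, in terms of the point -/
theorem mem_iff {B lam X : ℝ} (hB : 0 < B) (hX : 0 < X) {p : GaussianInt × GaussianInt}
    (h : GTri p) : p ∈ Exceptions B lam X ↔ (hgt (phi p) ≤ 2 * Real.log X ∧
      Real.log (nn (sp (phi p))) ≤ lam * hgt (phi p) + 2 * Real.log B) := by
  have hs : 1 ≤ size p.1 p.2 := one_le_size h
  have hs0 : 0 < size p.1 p.2 := by linarith
  have hr : 0 < rad (p.1 * p.2 * (p.1 + p.2)) := by linarith [one_le_rad h]
  have e1 : hgt (phi p) = 2 * Real.log (size p.1 p.2) := by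
    unfold phi
    rw [hgt_gauss h.tri]
    rfl
  have e2 : Real.log (nn (sp (phi p))) = 2 * Real.log (rad (p.1 * p.2 * (p.1 + p.2))) := by
    rw [log_rad h]
    rfl
  rw [e1, e2]
  have e3 : size p.1 p.2 ≤ X ↔ Real.log (size p.1 p.2) ≤ Real.log X :=
    (Real.log_le_log_iff hs0 hX).symm
  have e4 : rad (p.1 * p.2 * (p.1 + p.2)) ≤ B * size p.1 p.2 ^ lam ↔
      Real.log (rad (p.1 * p.2 * (p.1 + p.2))) ≤
        Real.log B + lam * Real.log (size p.1 p.2) := by
    rw [← Real.log_le_log_iff hr (mul_pos hB (Real.rpow_pos_of_pos hs0 _)),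
      Real.log_mul hB.ne' (Real.rpow_pos_of_pos hs0 _).ne', Real.log_rpow hs0]
  constructor
  · rintro ⟨_, _, _, _, h5, h6⟩
    rw [e3] at h5
    rw [e4] at h6
    constructor <;> linarith
  · rintro ⟨h5, h6⟩
    obtain ⟨g1, g2, g3, g4⟩ := h
    refine ⟨g1, g2, g3, g4, ?_, ?_⟩
    · rw [e3]; linarith
    · rw [e4]; linarith

/-- Let `B > 0` and `0 < lam ≤ 3`, and let `N(X)` be the number of the coprime triples `a + b = c`,
`a b c ≠ 0`, of Gaussian integers with `max {|a|, |b|, |c|} ≤ X` and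
`rad(abc) ≤ B max {|a|, |b|, |c|} ^ lam`. For `ε > 0` there is `C` with
`N(X) ≤ C X ^ (2 F(lam) + ε)` for all `X ≥ 1`. For `lam > 1` there are `c > 0` and `X₀` with
`N(X) ≥ c X ^ (2 (lam - 1))` for `X ≥ X₀`; note `F(lam) = lam - 1` for `2 ≤ lam ≤ 3`. -/
theorem result : ∀ B lam : ℝ, 0 < B → 0 < lam → lam ≤ 3 →
    (∀ ε : ℝ, 0 < ε → ∃ C : ℝ, ∀ X : ℝ, 1 ≤ X →
      (Exceptions B lam X).Finite ∧
      ((Exceptions B lam X).ncard : ℝ) ≤ C * X ^ (2 * F lam + ε)) ∧
    (1 < lam → ∃ c X₀ : ℝ, 0 < c ∧ ∀ X : ℝ, X₀ ≤ X →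
      c * X ^ (2 * (lam - 1)) ≤ ((Exceptions B lam X).ncard : ℝ)) := by
  classical
  intro B lam hB h0 h3
  have hup : ∀ ε : ℝ, 0 < ε → ∃ C : ℝ, ∀ X : ℝ, 1 ≤ X →
      (Exceptions B lam X).Finite ∧
      ((Exceptions B lam X).ncard : ℝ) ≤ C * X ^ (2 * F lam + ε) := by
    intro ε hε
    obtain ⟨C, hC, h⟩ := Pool.Agent.R365.AK.affExc Pool.Agent.TH402.AK.K4 lam (2 * Real.log B)
      (ε / 2) h0 h3 (by positivity)
    refine ⟨4 * C, fun X hX => ?_⟩
    have hX0 : 0 < X := by linarith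
    have hb : ∀ G : Finset (GaussianInt × GaussianInt),
        (G : Set (GaussianInt × GaussianInt)) ⊆ Exceptions B lam X →
        (G.card : ℝ) ≤ 4 * C * X ^ (2 * F lam + ε) := by
      intro G hG
      have hg : ∀ p ∈ G, Pool.Agent.TH402.AK.GTri p := fun p hp =>
        ⟨(hG hp).1, (hG hp).2.1, (hG hp).2.2.1, (hG hp).2.2.2.1⟩
      have h1 := Pool.Agent.TH402.AK.card_le_four G hg
      have h2 := h (2 * Real.log X) (mul_nonneg (by norm_num) (Real.log_nonneg hX))
        (G.image Pool.Agent.TH402.AK.phi) (by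
        intro x hx
        obtain ⟨p, hp, rfl⟩ := Finset.mem_image.1 hx
        exact ⟨(hg p hp).tri.pt, (mem_iff hB hX0 (hg p hp)).1 (hG hp)⟩)
      have h3 : Real.exp ((Pool.Agent.R365.AK.eK lam + ε / 2) * (2 * Real.log X)) =
          X ^ (2 * F lam + ε) := by
        rw [Real.rpow_def_of_pos hX0]
        congr 1
        have : Pool.Agent.R365.AK.eK lam = F lam := rfl
        rw [this]
        ring
      rw [h3] at h2
      have h4 : (G.card : ℝ) ≤ 4 * ((G.image Pool.Agent.TH402.AK.phi).card : ℝ) := by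
        exact_mod_cast h1
      linarith
    have hfin : (Exceptions B lam X).Finite := by
      by_contra hinf
      obtain ⟨G, hGV, hGc⟩ := Set.Infinite.exists_subset_card_eq hinf
        (⌊4 * C * X ^ (2 * F lam + ε)⌋₊ + 1)
      have h1 := hb G hGV
      have h2 := Nat.lt_floor_add_one (4 * C * X ^ (2 * F lam + ε))
      rw [hGc] at h1
      push_cast at h1
      linarith
    refine ⟨hfin, ?_⟩
    rw [Set.ncard_eq_toFinset_card _ hfin]
    exact hb hfin.toFinset (by rw [Set.Finite.coe_toFinset])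
  refine ⟨hup, fun h1 => ?_⟩
  obtain ⟨c, Z₀, hc, hZ₀, h⟩ := Pool.Agent.R365.AK.affLow Pool.Agent.TH402.AK.K4 lam
    (2 * Real.log B) h1 h3
  refine ⟨c, Real.exp (Z₀ / 2), hc, fun X hX => ?_⟩
  have hX1 : 1 ≤ X := (Real.one_le_exp (by positivity)).trans hX
  have hX0 : 0 < X := by linarith
  obtain ⟨G, hG, hcard⟩ := h (2 * Real.log X) (by
    have h2 : Z₀ / 2 ≤ Real.log X := (Real.le_log_iff_exp_le hX0).2 hX
    linarith)
  have hex : ∀ x : Pool.Agent.TH402.AK.K4, ∃ p : GaussianInt × GaussianInt, x ∈ G →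
      Pool.Agent.TH402.AK.GTri p ∧ Pool.Agent.TH402.AK.phi p = x := by
    intro x
    by_cases hx : x ∈ G
    · obtain ⟨p, hp⟩ := exists_gauss (hG x hx).1
      exact ⟨p, fun _ => hp⟩
    · exact ⟨0, fun h => absurd h hx⟩
  choose f hf using hex
  have hinj : Set.InjOn f G := by
    intro x hx y hy hxy
    rw [← (hf x hx).2, ← (hf y hy).2, hxy]
  have hsub : ((G.image f : Finset _) : Set (GaussianInt × GaussianInt)) ⊆
      Exceptions B lam X := by
    intro p hp
    rw [Finset.mem_coe, Finset.mem_image] at hp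
    obtain ⟨x, hx, rfl⟩ := hp
    obtain ⟨g1, g2⟩ := hf x hx
    rw [mem_iff hB hX0 g1, g2]
    exact (hG x hx).2
  have h2 := Set.ncard_le_ncard hsub ((hup 1 one_pos).choose_spec X hX1).1
  rw [Set.ncard_coe_finset, Finset.card_image_of_injOn hinj] at h2
  have h4 : Real.exp ((lam - 1) * (2 * Real.log X)) = X ^ (2 * (lam - 1)) := by
    rw [Real.rpow_def_of_pos hX0]
    congr 1
    ring
  rw [h4] at hcard
  exact hcard.trans (by exact_mod_cast h2)

end Pool.Agent.Results.MP_dc323a_nt.ExceptionsAtEveryLevel
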