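import Mathlib
import Pool.Agent.R365.SH.Aff
import Pool.Agent.TH402.AK.Count

/-!
# Triples of Gaussian integers ordered by their radical: the sharp count and the tails

The coprime triples `a + b = c`, `a b c ≠ 0`, of Gaussian integers are ordered by the radical of
`a b c`; there is no restriction on their size.
-/

set_option autoImplicit false

namespace Pool.Agent.Results.MP_dc323a_nt.SharpCount

open Filter Topology

/-- `max {|a|, |b|, |a + b|}` -/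
noncomputable def size (a b : GaussianInt) : ℝ :=
  max ‖GaussianInt.toComplex a‖ (max ‖GaussianInt.toComplex b‖ ‖GaussianInt.toComplex (a + b)‖)

/-- `rad(n)`: the product of `|Q|` over the Gaussian primes `Q` dividing `n`, one from each class of
associates, namely the one with `Re Q > 0` and `Im Q ≥ 0` -/
noncomputable def rad (n : GaussianInt) : ℝ :=
  ∏ᶠ Q ∈ {Q : GaussianInt | Prime Q ∧ Q ∣ n ∧ (0 < Q.re ∧ 0 ≤ Q.im)}, ‖GaussianInt.toComplex Q‖

/-- the pairs `(a, b)` of coprime Gaussian integers with `a b c ≠ 0`, where `c = a + b` -/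
def Triples : Set (GaussianInt × GaussianInt) :=
  {p | p.1 ≠ 0 ∧ p.2 ≠ 0 ∧ p.1 + p.2 ≠ 0 ∧ IsCoprime p.1 p.2}

/-- the triples with `rad(abc) ≤ X`; there is no condition on the size -/
def ByRadical (X : ℝ) : Set (GaussianInt × GaussianInt) :=
  {p | p ∈ Triples ∧ rad (p.1 * p.2 * (p.1 + p.2)) ≤ X}

/-- those among them with `max {|a|, |b|, |c|} ^ 3 ≥ t rad(abc)` -/
def Exceptions (X t : ℝ) : Set (GaussianInt × GaussianInt) :=
  {p | p ∈ Triples ∧ rad (p.1 * p.2 * (p.1 + p.2)) ≤ X ∧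
    t * rad (p.1 * p.2 * (p.1 + p.2)) ≤ size p.1 p.2 ^ 3}

theorem fin_of_bound {α : Type} (P : Set α) (B : ℝ)
    (h : ∀ G : Finset α, (G : Set α) ⊆ P → (G.card : ℝ) ≤ B) : P.Finite ∧ (P.ncard : ℝ) ≤ B := by
  have hfin : P.Finite := by
    by_contra hinf
    obtain ⟨G, hGV, hGc⟩ := Set.Infinite.exists_subset_card_eq hinf (⌊B⌋₊ + 1)
    have h1 := h G hGV
    have h2 := Nat.lt_floor_add_one B
    rw [hGc] at h1
    push_cast at h1
    linarith
  refine ⟨hfin, ?_⟩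
  rw [Set.ncard_eq_toFinset_card _ hfin]
  exact h hfin.toFinset (by rw [Set.Finite.coe_toFinset])

open Pool.Agent.TH402.AK Pool.Agent.TH876.Loc in
theorem one_le_rad {p : GaussianInt × GaussianInt} (h : p ∈ Triples) :
    1 ≤ rad (p.1 * p.2 * (p.1 + p.2)) := by
  have h1 : GTri p := h
  have h2 := rad_tri h1.tri
  have h3 := one_le_nn (sp (pt (e p.1) (e p.2)))
  rw [← h2] at h3
  have h4 : 0 ≤ rad (p.1 * p.2 * (p.1 + p.2)) := rad_pos _
  by_contra h5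
  rw [not_le] at h5
  have h6 : Pool.Agent.TH402.AK.rad (p.1 * p.2 * (p.1 + p.2)) ^ 2 < 1 :=
    pow_lt_one₀ h4 h5 (by norm_num)
  linarith

open Pool.Agent.TH402.AK Pool.Agent.TH876.Loc in
theorem log_rad {p : GaussianInt × GaussianInt} (h : p ∈ Triples) :
    2 * Real.log (rad (p.1 * p.2 * (p.1 + p.2))) = Real.log (nn (sp (pt (e p.1) (e p.2)))) := by
  have h1 : GTri p := h
  rw [← rad_tri h1.tri, Real.log_pow]
  norm_num
  rfl

open Pool.Agent.TH402.AK Pool.Agent.TH876.Loc in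
theorem upper : ∃ C : ℝ, 0 < C ∧ ∀ X : ℝ, 1 ≤ X →
    ∀ F : Finset (GaussianInt × GaussianInt), (F : Set (GaussianInt × GaussianInt)) ⊆ ByRadical X →
    (F.card : ℝ) ≤ C * X ^ (4 / 3 : ℝ) := by
  classical
  obtain ⟨C, hC, h⟩ := Pool.Agent.R365.SH.aff_upper K4
  refine ⟨4 * C, by linarith, ?_⟩
  intro X hX F hF
  have h0 : ∀ p ∈ F, GTri p ∧ Pool.Agent.TH402.AK.rad (p.1 * p.2 * (p.1 + p.2)) ≤ X :=
    fun p hp => hF hp
  have h1 := card_le_four F fun p hp => (h0 p hp).1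
  have h2 := h (X ^ 2) (one_le_pow₀ hX) (F.image phi) (by
    intro x hx
    obtain ⟨p, hp, rfl⟩ := Finset.mem_image.1 hx
    obtain ⟨h3, h4⟩ := h0 p hp
    refine ⟨h3.tri.pt, ?_⟩
    unfold phi
    rw [← rad_tri h3.tri]
    exact pow_le_pow_left₀ (rad_pos _) h4 2)
  have h3 : (X ^ 2 : ℝ) ^ (2 / 3 : ℝ) = X ^ (4 / 3 : ℝ) := by
    rw [← Real.rpow_natCast, ← Real.rpow_mul (by linarith)]
    congr 1
    push_cast
    ring
  rw [h3] at h2
  have h4 : (F.card : ℝ) ≤ 4 * ((F.image phi).card : ℝ) := by exact_mod_cast h1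
  linarith

open Pool.Agent.TH402.AK Pool.Agent.TH876.Loc in
theorem tail (c : ℝ) (hc0 : 0 ≤ c) (hc1 : c < 2 / 3) : ∃ C ν : ℝ, 0 < C ∧ 0 < ν ∧
    ∀ X t : ℝ, 1 ≤ X → 1 ≤ t →
    ∀ F : Finset (GaussianInt × GaussianInt),
      (F : Set (GaussianInt × GaussianInt)) ⊆ Exceptions X t →
    (F.card : ℝ) ≤ C * (t ^ (-c) + X ^ (-ν)) * X ^ (4 / 3 : ℝ) := by
  classical
  obtain ⟨C, ν, hC, hν, h⟩ := Pool.Agent.R365.SH.aff_tail K4 (c / 2) (by linarith) (by linarith)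
  refine ⟨4 * C, 2 * ν, by linarith, by linarith, ?_⟩
  intro X t hX ht F hF
  have ht0 : 0 < t := by linarith
  have h0 : ∀ p ∈ F, p ∈ Triples ∧ rad (p.1 * p.2 * (p.1 + p.2)) ≤ X ∧
    t * rad (p.1 * p.2 * (p.1 + p.2)) ≤ size p.1 p.2 ^ 3 := fun p hp => hF hp
  have h1 := card_le_four F fun p hp => (h0 p hp).1
  have h2 := h (X ^ 2) (2 * Real.log t) (one_le_pow₀ hX)
    (mul_nonneg (by norm_num) (Real.log_nonneg ht)) (F.image phi) (by
    intro x hx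
    obtain ⟨p, hp, rfl⟩ := Finset.mem_image.1 hx
    obtain ⟨h3, h4, h5⟩ := h0 p hp
    have h6 : GTri p := h3
    refine ⟨h6.tri.pt, ?_, ?_⟩
    · unfold phi
      rw [← rad_tri h6.tri]
      exact pow_le_pow_left₀ (rad_pos _) h4 2
    · unfold phi
      rw [← log_rad h3, hgt_gauss h6.tri]
      have h7 : 1 ≤ rad (p.1 * p.2 * (p.1 + p.2)) := one_le_rad h3
      have h8 : 0 < rad (p.1 * p.2 * (p.1 + p.2)) := by linarith
      have h9 := Real.log_le_log (mul_pos ht0 h8) h5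
      rw [Real.log_mul ht0.ne' h8.ne', Real.log_pow] at h9
      unfold size at h9
      push_cast at h9
      linarith)
  have h3 : (X ^ 2 : ℝ) ^ (2 / 3 : ℝ) = X ^ (4 / 3 : ℝ) := by
    rw [← Real.rpow_natCast, ← Real.rpow_mul (by linarith)]
    congr 1
    push_cast
    ring
  have h4 : (X ^ 2 : ℝ) ^ (-ν) = X ^ (-(2 * ν)) := by
    rw [← Real.rpow_natCast, ← Real.rpow_mul (by linarith)]
    congr 1
    push_cast
    ring
  have h5 : Real.exp (-(c / 2 * (2 * Real.log t))) = t ^ (-c) := by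
    rw [Real.rpow_def_of_pos ht0]
    congr 1
    ring
  rw [h3, h4, h5] at h2
  have h6 : (F.card : ℝ) ≤ 4 * ((F.image phi).card : ℝ) := by exact_mod_cast h1
  linarith

/-- **The triples of Gaussian integers by their radical.** Let `N(X)` be the number of the coprime
triples `a + b = c`, `a b c ≠ 0`, of Gaussian integers with `rad(abc) ≤ X`, of whatever size.
(1) `N(X)` is finite, and `c₁ X ^ (4 / 3) ≤ N(X) ≤ c₂ X ^ (4 / 3)` for large `X`, `c₁ > 0`.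
(2) For every `c < 2 / 3` there are `C` and `ν > 0` such that for all `X, t ≥ 1` at most
`C (t ^ (-c) + X ^ (-ν)) X ^ (4 / 3)` of these triples violate
`max {|a|, |b|, |c|} ^ 3 < t rad(abc)`.
(3) For every function `ψ` tending to infinity the proportion of those which violate
`max {|a|, |b|, |c|} ^ 3 < ψ(X) rad(abc)` tends to `0`. -/
theorem result :
    (∀ X : ℝ, 1 ≤ X → (ByRadical X).Finite) ∧
    (∃ c₁ c₂ X₀ : ℝ, 0 < c₁ ∧ ∀ X : ℝ, X₀ ≤ X →
      c₁ * X ^ (4 / 3 : ℝ) ≤ ((ByRadical X).ncard : ℝ) ∧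
      ((ByRadical X).ncard : ℝ) ≤ c₂ * X ^ (4 / 3 : ℝ)) ∧
    (∀ c : ℝ, 0 ≤ c → c < 2 / 3 → ∃ C ν : ℝ, 0 < ν ∧ ∀ X t : ℝ, 1 ≤ X → 1 ≤ t →
      ((Exceptions X t).ncard : ℝ) ≤ C * (t ^ (-c) + X ^ (-ν)) * X ^ (4 / 3 : ℝ)) ∧
    (∀ ψ : ℝ → ℝ, Tendsto ψ atTop atTop →
      Tendsto (fun X : ℝ => ((Exceptions X (ψ X)).ncard : ℝ) / ((ByRadical X).ncard : ℝ))
        atTop (𝓝 0)) := by
  obtain ⟨C, hC, hup⟩ := upper
  have hup' : ∀ X : ℝ, 1 ≤ X → (ByRadical X).Finite ∧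
      ((ByRadical X).ncard : ℝ) ≤ C * X ^ (4 / 3 : ℝ) := fun X hX =>
    fin_of_bound _ _ fun G hG => hup X hX G hG
  obtain ⟨c₁, X₀, hc₁, hX₀, hl⟩ := Pool.Agent.TH402.AK.lower
  have hlow : ∀ X : ℝ, X₀ ≤ X → c₁ * X ^ (4 / 3 : ℝ) ≤ ((ByRadical X).ncard : ℝ) := by
    intro X hX
    obtain ⟨F, hF, hcard⟩ := hl X hX
    have hfin : (ByRadical X).Finite := (hup' X (hX₀.trans hX)).1
    have h1 : (F : Set (GaussianInt × GaussianInt)) ⊆ ByRadical X := by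
      intro p hp
      obtain ⟨h2, h3, h4⟩ := hF p hp
      exact ⟨h2, h3⟩
    have h2 := Set.ncard_le_ncard h1 hfin
    rw [Set.ncard_coe_finset] at h2
    refine hcard.trans ?_
    exact_mod_cast h2
  have htail : ∀ c : ℝ, 0 ≤ c → c < 2 / 3 → ∃ C ν : ℝ, 0 < C ∧ 0 < ν ∧ ∀ X t : ℝ, 1 ≤ X → 1 ≤ t →
      ((Exceptions X t).ncard : ℝ) ≤ C * (t ^ (-c) + X ^ (-ν)) * X ^ (4 / 3 : ℝ) := by
    intro c hc0 hc1
    obtain ⟨C, ν, hC, hν, h⟩ := tail c hc0 hc1
    exact ⟨C, ν, hC, hν, fun X t hX ht => (fin_of_bound _ _ fun G hG => h X t hX ht G hG).2⟩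
  refine ⟨fun X hX => (hup' X hX).1, ⟨c₁, C, X₀, hc₁, fun X hX =>
    ⟨hlow X hX, (hup' X (hX₀.trans hX)).2⟩⟩, ?_, ?_⟩
  · intro c hc0 hc1
    obtain ⟨C, ν, _, hν, h⟩ := htail c hc0 hc1
    exact ⟨C, ν, hν, h⟩
  · intro ψ hψ
    obtain ⟨C', ν', hC', hν', h⟩ := htail (1 / 3) (by norm_num) (by norm_num)
    have hlim : Tendsto (fun X : ℝ => C' / c₁ * ((ψ X) ^ (-(1 / 3 : ℝ)) + X ^ (-ν')))
        atTop (𝓝 0) := by
      have h1 : Tendsto (fun X : ℝ => (ψ X) ^ (-(1 / 3 : ℝ))) atTop (𝓝 0) :=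
        (tendsto_rpow_neg_atTop (by norm_num : (0 : ℝ) < 1 / 3)).comp hψ
      have h2 : Tendsto (fun X : ℝ => X ^ (-ν')) atTop (𝓝 0) :=
        tendsto_rpow_neg_atTop hν'
      have h3 := (h1.add h2).const_mul (C' / c₁)
      rwa [add_zero, mul_zero] at h3
    refine squeeze_zero' (Eventually.of_forall fun X => by positivity) ?_ hlim
    filter_upwards [eventually_ge_atTop (max 1 X₀), hψ.eventually_ge_atTop 1] with X hX hψX
    have hX1 : 1 ≤ X := (le_max_left _ _).trans hX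
    have hX0 : 0 < X := by linarith
    have hp : 0 < X ^ (4 / 3 : ℝ) := Real.rpow_pos_of_pos hX0 _
    have g1 := hlow X ((le_max_right _ _).trans hX)
    have g2 := h X (ψ X) hX1 hψX
    have g3 : 0 < c₁ * X ^ (4 / 3 : ℝ) := by positivity
    have g4 : 0 < ((ByRadical X).ncard : ℝ) := g3.trans_le g1
    rw [div_le_iff₀ g4]
    refine g2.trans ?_
    have g5 : 0 ≤ C' / c₁ * ((ψ X) ^ (-(1 / 3 : ℝ)) + X ^ (-ν')) := by
      have : 0 < ψ X := by linarith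
      positivity
    have g6 := mul_le_mul_of_nonneg_left g1 g5
    refine le_trans (le_of_eq ?_) g6
    field_simp

end Pool.Agent.Results.MP_dc323a_nt.SharpCount
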