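import Pool.Agent.Results.MP_dc323a_nt.WindowsWithoutExceptions
import Pool.Agent.R482.ST.Star

/-!
# The abc conjecture over the Gaussian integers without exceptions near powers, orbits and other sequences

Let `f_n`, `n = 0, 1, 2, …`, be positive functions on `(a, ∞)`, `a ≥ 0`, such that `f_n(t) / t` is nondecreasing, and such
that the sequence `f_n(t)` has exponent of convergence at most `τ` for each `t > a`: for instance `f_n(t) = t ^ (v_n)` for
exponents `v_n ≥ 1` (`τ = 0`; all powers, the powers `t ^ (3 ^ n)` of Mills, …), the orbits `f_n(t) = g (g (⋯ g (t)))` of any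
map `g` with `g(t) > t` and `g(t) / t` nondecreasing (`τ = 0`; for instance of `t² + c`), and `f_n(t) = v_n t`.
Let `θ < 1`, `λ > 0` and `s = min (4 λ / 7) (6 / 11) + max (λ - 1) 0`. For all `α > a` outside a set of Hausdorff dimension at
most `(s + τ) / (1 - θ)` and all `B` and `κ`, for all but finitely many `n`, ALL coprime triples `a + b = c` of nonzero
Gaussian integers for which `H = max (|a|, |b|, |c|)` satisfies `|H ^ 2 - f_n(α)| ≤ κ f_n(α) ^ θ` have `rad (abc) > B H ^ λ`.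
-/

set_option autoImplicit false

namespace Pool.Agent.Results.MP_dc323a_nt.StarshapedWindows

open WindowsWithoutExceptions (IsPrimeSystem height expo All count)

/-- the functions `f n` are positive on `(a, ∞)`, `a ≥ 0`, and `f n x / x` is nondecreasing there -/
def Starshaped (a : ℝ) (f : ℕ → ℝ → ℝ) : Prop :=
  0 ≤ a ∧ ∀ n : ℕ, ∀ x y : ℝ, a < x → x ≤ y → 0 < f n x ∧ f n x / x ≤ f n y / y

/-- for each `x > a` the exponent of convergence of the sequence `f n x` is at most `τ` -/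
def ExpLe (a : ℝ) (f : ℕ → ℝ → ℝ) (τ : ℝ) : Prop :=
  ∀ x : ℝ, a < x → ∀ t : ℝ, τ < t → Summable (fun n : ℕ => (f n x) ^ (-t))

/-- **Theorem.** Let `f` be starshaped functions on `(a, ∞)` of exponent of convergence at most `τ ≥ 0`, `θ < 1` and `λ > 0`.
There is a set `E` of Hausdorff dimension at most `(expo λ + τ) / (1 - θ)`, `expo λ = min (4 λ / 7) (6 / 11) + max (λ - 1) 0`,
such that for each `α > a` outside `E` and all `B` and `κ`, for all but finitely many `n`, ALL coprime triples `a + b = c` of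
nonzero Gaussian integers with `|H ^ 2 - f_n(α)| ≤ κ f_n(α) ^ θ`, `H = max (|a|, |b|, |c|)`, have `rad (abc) > B H ^ λ`.
The functions `v_n x`, `v_n > 0`, are starshaped on `(0, ∞)`, of exponent `τ` if `v` has exponent of convergence at most
`τ`; the functions `x ^ (v_n)`, `v_n ≥ 1`, are starshaped on `(1, ∞)`, of exponent `0` if the sums of `exp (-t v_n)` converge
for `t > 0`; and the iterates of a map `g` with `g(x) > x` for `x > a` and `g(x) / x` nondecreasing are starshaped on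
`(a, ∞)`, of exponent `0`. -/
theorem result :
    (∀ (a₀ : ℝ) (f : ℕ → ℝ → ℝ) (τ θ lam : ℝ), Starshaped a₀ f → 0 ≤ τ → ExpLe a₀ f τ → θ < 1 → 0 < lam →
      ∃ E : Set ℝ, dimH E ≤ ENNReal.ofReal ((expo lam + τ) / (1 - θ)) ∧
        ∀ α : ℝ, a₀ < α → α ∉ E → ∀ B κ : ℝ, ∃ n₀ : ℕ, ∀ n : ℕ, n₀ ≤ n → ∀ a b c : GaussianInt,
          a ≠ 0 → b ≠ 0 → c ≠ 0 → a + b = c → IsCoprime a b →
            |height (a, b, c) ^ 2 - f n α| ≤ κ * (f n α) ^ θ →
            ∀ S : Finset GaussianInt, IsPrimeSystem S (a * b * c) →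
              B * height (a, b, c) ^ lam < ∏ Q ∈ S, ‖GaussianInt.toComplex Q‖) ∧
    (∀ (v : ℕ → ℝ) (τ : ℝ), (∀ n, 0 < v n) → (∀ t : ℝ, τ < t → Summable (fun n : ℕ => (v n) ^ (-t))) →
      Starshaped 0 (fun n x => v n * x) ∧ ExpLe 0 (fun n x => v n * x) τ) ∧
    (∀ v : ℕ → ℝ, (∀ n, 1 ≤ v n) → (∀ t : ℝ, 0 < t → Summable fun n : ℕ => Real.exp (-(t * v n))) →
      Starshaped 1 (fun n x => x ^ (v n)) ∧ ExpLe 1 (fun n x => x ^ (v n)) 0) ∧
    (∀ (a : ℝ) (g : ℝ → ℝ), 0 ≤ a → (∀ x y : ℝ, a < x → x ≤ y → g x / x ≤ g y / y) → (∀ x : ℝ, a < x → x < g x) →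
      Starshaped a (fun n x => g^[n] x) ∧ ExpLe a (fun n x => g^[n] x) 0) := by
  refine ⟨fun a₀ f τ θ lam hf hτ hE hθ1 hlam => ?_, Pool.Agent.R482.ST.ex_mul, Pool.Agent.R482.ST.ex_pow,
    Pool.Agent.R482.ST.ex_orbit⟩
  have hs : 0 ≤ expo lam := add_nonneg (le_min (by positivity) (by norm_num)) (le_max_right _ _)
  have hall : ∀ k : ℕ, ∃ E : Set ℝ, dimH E ≤ ENNReal.ofReal ((expo lam + τ) / (1 - θ)) ∧
      ∀ α : ℝ, a₀ < α → α ∉ E → ∀ κ : ℝ, ∃ n0 : ℕ, ∀ n : ℕ, n0 ≤ n → ∀ t ∈ All (k : ℝ) lam,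
        κ * (f n α) ^ θ < |height t ^ 2 - f n α| := fun k =>
    Pool.Agent.R482.ST.windows (All (k : ℝ) lam) (fun t => height t ^ 2) hf hτ hE hs hθ1
      (fun ε hε => count k lam ε hlam hε)
  choose E hE1 hE2 using hall
  refine ⟨⋃ k, E k, ?_, fun α hα hαE B κ => ?_⟩
  · rw [dimH_iUnion]
    exact iSup_le hE1
  · obtain ⟨k, hk⟩ := exists_nat_ge B
    obtain ⟨n₀, hn⟩ := hE2 k α hα (fun h => hαE (Set.mem_iUnion.2 ⟨k, h⟩)) κ
    refine ⟨n₀, fun n hn1 a b c ha hb hc habc hcop hw S hS => ?_⟩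
    by_contra hcon
    push Not at hcon
    have hpos : 0 ≤ height (a, b, c) := (norm_nonneg _).trans (le_max_left _ _)
    refine absurd (hn n hn1 (a, b, c) (Set.mem_iUnion.2 ⟨height (a, b, c), ha, hb, hc, habc, hcop, le_refl _, S, hS,
      hcon.trans ?_⟩)) (not_lt.2 hw)
    exact mul_le_mul_of_nonneg_right hk (Real.rpow_nonneg hpos _)

end Pool.Agent.Results.MP_dc323a_nt.StarshapedWindows
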