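import Pool.Agent.R559.NP.Abc

/-!
# The abc inequality over the Gaussian integers for the triples near a given point

Let `K = ℚ(i)`, `𝓞 K = ℤ[i]`, and let `φ` be any map from the triples of Gaussian integers, invariant under multiplication
with units, to a metric space `X`, for example `a / c` in `ℂ` or in a completion of `K`.  For all `ξ ∈ X` outside a set of
Hausdorff dimension at most `40 / (37 τ)` and all `A` there is `C` such that ALL coprime `a + b = c` with `abc ≠ 0` and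
`dist (φ (a, b, c)) ξ ≤ A max (|a|, |b|, |c|) ^ (-τ)` satisfy `max (|a|, |b|, |c|) ≤ C rad (abc)`; only finitely many of them
satisfy `rad (abc) ≤ κ max (|a|, |b|, |c|)`, for each `κ`.
-/

set_option autoImplicit false

namespace Pool.Agent.Results.MP_dc323a_nt.TriplesNearAPoint

open NumberField IsDedekindDomain Filter Topology MeasureTheory

variable {K : Type} [Field K] [NumberField K]

/-- the coprime triples with `a + b = c` and `abc ≠ 0` -/
structure Triple (t : 𝓞 K × 𝓞 K × 𝓞 K) : Prop where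
  sum : t.1 + t.2.1 = t.2.2
  ne : t.1 * t.2.1 * t.2.2 ≠ 0
  cop : Ideal.span {t.1, t.2.1, t.2.2} = (⊤ : Ideal (𝓞 K))

/-- `max (|a|, |b|, |c|)`, the absolute value given by the embedding `ι` -/
noncomputable def height (ι : K →+* ℂ) (t : 𝓞 K × 𝓞 K × 𝓞 K) : ℝ :=
  max ‖ι t.1‖ (max ‖ι t.2.1‖ ‖ι t.2.2‖)

/-- the radical: the product over the primes `P` dividing `abc` of `√N(P)`; if `K = ℚ(i)` and `P` is generated by `Q`,
then `√N(P) = |Q|` -/
noncomputable def rad (t : 𝓞 K × 𝓞 K × 𝓞 K) : ℝ :=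
  ∏ᶠ (P : HeightOneSpectrum (𝓞 K)) (_ : t.1 * t.2.1 * t.2.2 ∈ P.asIdeal),
    Real.sqrt (Ideal.absNorm P.asIdeal : ℝ)

/-- `s` is the multiple of `t` by a unit -/
def UnitMultiple (t s : 𝓞 K × 𝓞 K × 𝓞 K) : Prop :=
  ∃ u : (𝓞 K)ˣ, s = (u * t.1, u * t.2.1, u * t.2.2)

/-- the change of sign of the last member -/
def neg (t : 𝓞 K × 𝓞 K × 𝓞 K) : 𝓞 K × 𝓞 K × 𝓞 K := (t.1, t.2.1, -t.2.2)

omit [NumberField K] in
lemma neg_neg' (t : 𝓞 K × 𝓞 K × 𝓞 K) : neg (neg t) = t := by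
  simp [neg]

lemma neg_triple {t : 𝓞 K × 𝓞 K × 𝓞 K} (h : Triple t) : Pool.Agent.R559.NP.Abc.Triple (neg t) := by
  refine ⟨?_, ?_, ?_⟩
  · show t.1 + t.2.1 + -t.2.2 = 0
    rw [h.sum]
    ring
  · show t.1 * t.2.1 * -t.2.2 ≠ 0
    rw [mul_neg, neg_ne_zero]
    exact h.ne
  · show Ideal.span {t.1, t.2.1, -t.2.2} = ⊤
    rw [eq_top_iff, ← h.cop, Ideal.span_le]
    intro x hx
    simp only [Set.mem_insert_iff, Set.mem_singleton_iff] at hx
    rcases hx with rfl | rfl | rfl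
    · exact Ideal.subset_span (by simp)
    · exact Ideal.subset_span (by simp)
    · have h1 : -t.2.2 ∈ Ideal.span ({t.1, t.2.1, -t.2.2} : Set (𝓞 K)) := Ideal.subset_span (by simp)
      have h2 := (Ideal.span ({t.1, t.2.1, -t.2.2} : Set (𝓞 K))).neg_mem h1
      rwa [neg_neg] at h2

/-- the two embeddings of `ℚ(i)` are complex conjugate -/
lemma height_neg (h2 : Module.finrank ℚ K = 2) (h5 : ∃ s : K, s ^ 2 = -1) (ι : K →+* ℂ)
    (t : 𝓞 K × 𝓞 K × 𝓞 K) : Pool.Agent.R559.NP.Abc.height (neg t) = height ι t ^ 2 := by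
  classical
  have hcard : Fintype.card (K →+* ℂ) = 2 := by
    rw [NumberField.Embeddings.card, h2]
  have key : ∀ φ : K →+* ℂ, ∀ x : K, ‖φ x‖ = ‖ι x‖ := by
    -- the conjugate of `ι` is different from `ι`
    have hne : ComplexEmbedding.conjugate ι ≠ ι := by
      intro h
      obtain ⟨s, hs⟩ := h5
      have h3 : (starRingEnd ℂ) (ι s) = ι s := by
        have := congrArg (fun f : K →+* ℂ => f s) h
        simpa using this
      have h4 : ι s ^ 2 = -1 := by rw [← map_pow, hs, map_neg, map_one]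
      have h6 : (ι s).im = 0 := by
        have := Complex.conj_eq_iff_im.1 h3
        exact this
      have h7 : ((ι s).re : ℂ) = ι s := by
        apply Complex.ext
        · simp
        · simp [h6]
      rw [← h7] at h4
      have h8 : ((ι s).re) ^ 2 = (-1 : ℝ) := by exact_mod_cast h4
      nlinarith [sq_nonneg (ι s).re]
    intro φ x
    have h3 : φ = ι ∨ φ = ComplexEmbedding.conjugate ι := by
      by_contra hcon
      push Not at hcon
      have h4 : ({φ, ι, ComplexEmbedding.conjugate ι} : Finset (K →+* ℂ)).card = 3 := by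
        rw [Finset.card_insert_of_notMem, Finset.card_pair hne.symm]
        simp only [Finset.mem_insert, Finset.mem_singleton, not_or]
        exact hcon
      have h6 := Finset.card_le_univ ({φ, ι, ComplexEmbedding.conjugate ι} : Finset (K →+* ℂ))
      rw [h4, hcard] at h6
      omega
    rcases h3 with rfl | rfl
    · rfl
    · rw [ComplexEmbedding.conjugate_coe_eq]
      exact Complex.norm_conj _
  unfold Pool.Agent.R559.NP.Abc.height height neg
  simp only [key, map_neg, norm_neg]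
  rw [Finset.prod_const, Finset.card_univ, hcard]

lemma rad_neg {t : 𝓞 K × 𝓞 K × 𝓞 K} (ht : t.1 * t.2.1 * t.2.2 ≠ 0) :
    Pool.Agent.R559.NP.Abc.rad (neg t) = rad t ^ 2 := by
  classical
  have e : t.1 * t.2.1 * -t.2.2 = -(t.1 * t.2.1 * t.2.2) := by ring
  have hfin := Pool.Agent.W16.TR.finite_dvd ht
  unfold Pool.Agent.R559.NP.Abc.rad rad neg
  simp only [e, neg_mem_iff]
  have e1 : (∏ᶠ (P : HeightOneSpectrum (𝓞 K)) (_ : t.1 * t.2.1 * t.2.2 ∈ P.asIdeal),
      (Ideal.absNorm P.asIdeal : ℝ)) = ∏ v ∈ hfin.toFinset, (Ideal.absNorm v.asIdeal : ℝ) :=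
    finprod_mem_eq_finite_toFinset_prod _ hfin
  have e2 : (∏ᶠ (P : HeightOneSpectrum (𝓞 K)) (_ : t.1 * t.2.1 * t.2.2 ∈ P.asIdeal),
      Real.sqrt (Ideal.absNorm P.asIdeal : ℝ)) = ∏ v ∈ hfin.toFinset, Real.sqrt (Ideal.absNorm v.asIdeal : ℝ) :=
    finprod_mem_eq_finite_toFinset_prod _ hfin
  rw [e1, e2, ← Finset.prod_pow]
  refine Finset.prod_congr rfl fun v _ => ?_
  rw [Real.sq_sqrt (Nat.cast_nonneg _)]

lemma rad_nonneg (t : 𝓞 K × 𝓞 K × 𝓞 K) : 0 ≤ rad t :=
  finprod_nonneg fun P => finprod_nonneg fun _ => Real.sqrt_nonneg _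

omit [NumberField K] in
lemma height_nonneg (ι : K →+* ℂ) (t : 𝓞 K × 𝓞 K × 𝓞 K) : 0 ≤ height ι t :=
  le_max_of_le_left (norm_nonneg _)

lemma neg_um {t s : 𝓞 K × 𝓞 K × 𝓞 K} (h : Pool.Agent.R559.NP.Abc.UnitMultiple t s) :
    UnitMultiple (neg t) (neg s) := by
  obtain ⟨u, rfl⟩ := h
  exact ⟨u, by simp [neg]⟩

/-- **Theorem.** Let `K = ℚ(i)` with ring of integers `ℤ[i]` and absolute value `|x| = ‖ι x‖`, let `φ` be a map from the
triples of Gaussian integers to a metric space `X` which takes the same value on triples differing by a unit, and `τ > 0`.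
(1) There is `E ⊆ X` of Hausdorff dimension at most `40 / (37 τ)` such that for all `ξ ∈ X` outside `E` and all `A`
there is `C` such that all coprime `a + b = c`, `abc ≠ 0`, with `dist (φ (a, b, c)) ξ ≤ A max (|a|, |b|, |c|) ^ (-τ)`
satisfy `max (|a|, |b|, |c|) ≤ C rad (abc)`; moreover for every `κ` there is a finite set of triples such that all those
triples with `rad (abc) ≤ κ max (|a|, |b|, |c|)` are multiples of its members by units.
(2) If `μ` is a measure on `X` for which the closed balls of radius `r` have measure at most `C₀ r ^ m`, and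
`40 / 37 < τ m`, the same holds for `μ`-almost all `ξ`. -/
theorem result (K : Type) [Field K] [NumberField K] (h2 : Module.finrank ℚ K = 2) (h5 : ∃ s : K, s ^ 2 = -1)
    (ι : K →+* ℂ) (X : Type) [MetricSpace X] (φ : 𝓞 K × 𝓞 K × 𝓞 K → X)
    (hφ : ∀ t s, UnitMultiple t s → φ t = φ s) (τ : ℝ) (hτ : 0 < τ) :
    (∃ E : Set X, dimH E ≤ ENNReal.ofReal (40 / 37 / τ) ∧ ∀ ξ : X, ξ ∉ E → ∀ A : ℝ,
      (∃ C : ℝ, ∀ t, Triple t → dist (φ t) ξ ≤ A * height ι t ^ (-τ) → height ι t ≤ C * rad t) ∧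
      (∀ κ : ℝ, ∃ F : Finset (𝓞 K × 𝓞 K × 𝓞 K), ∀ t, Triple t → dist (φ t) ξ ≤ A * height ι t ^ (-τ) →
        rad t ≤ κ * height ι t → ∃ s ∈ F, UnitMultiple s t)) ∧
    (∀ [MeasurableSpace X] (μ : Measure X) (C₀ m : ℝ),
      (∀ (x : X) (r : ℝ), 0 < r → μ (Metric.closedBall x r) ≤ ENNReal.ofReal (C₀ * r ^ m)) →
      40 / 37 < τ * m → ∀ᵐ ξ ∂μ, ∀ A : ℝ,
      (∃ C : ℝ, ∀ t, Triple t → dist (φ t) ξ ≤ A * height ι t ^ (-τ) → height ι t ≤ C * rad t) ∧
      (∀ κ : ℝ, ∃ F : Finset (𝓞 K × 𝓞 K × 𝓞 K), ∀ t, Triple t → dist (φ t) ξ ≤ A * height ι t ^ (-τ) →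
        rad t ≤ κ * height ι t → ∃ s ∈ F, UnitMultiple s t)) := by
  classical
  have hnear := Pool.Agent.R559.NP.Abc.near_abc K X (fun t => φ (neg t)) (fun t s h => hφ _ _ (neg_um h))
    (τ / 2) (by positivity)
  -- translation
  have concl : ∀ ξ : X, (∀ A : ℝ, (∃ C : ℝ, ∀ t, Pool.Agent.R559.NP.Abc.Triple t →
        dist (φ (neg t)) ξ ≤ A * Pool.Agent.R559.NP.Abc.height t ^ (-(τ / 2)) →
        Pool.Agent.R559.NP.Abc.height t ≤ C * Pool.Agent.R559.NP.Abc.rad t) ∧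
      (∀ κ : ℝ, ∃ F : Finset (𝓞 K × 𝓞 K × 𝓞 K), ∀ t, Pool.Agent.R559.NP.Abc.Triple t →
        dist (φ (neg t)) ξ ≤ A * Pool.Agent.R559.NP.Abc.height t ^ (-(τ / 2)) →
        Pool.Agent.R559.NP.Abc.rad t ≤ κ * Pool.Agent.R559.NP.Abc.height t →
        ∃ s ∈ F, Pool.Agent.R559.NP.Abc.UnitMultiple s t)) → ∀ A : ℝ,
      (∃ C : ℝ, ∀ t, Triple t → dist (φ t) ξ ≤ A * height ι t ^ (-τ) → height ι t ≤ C * rad t) ∧
      (∀ κ : ℝ, ∃ F : Finset (𝓞 K × 𝓞 K × 𝓞 K), ∀ t, Triple t → dist (φ t) ξ ≤ A * height ι t ^ (-τ) →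
        rad t ≤ κ * height ι t → ∃ s ∈ F, UnitMultiple s t) := by
    intro ξ h A
    have hd : ∀ t, dist (φ t) ξ ≤ A * height ι t ^ (-τ) →
        dist (φ (neg (neg t))) ξ ≤ A * Pool.Agent.R559.NP.Abc.height (neg t) ^ (-(τ / 2)) := by
      intro t ht
      rw [neg_neg', height_neg h2 h5 ι, ← Real.rpow_natCast (height ι t) 2, ← Real.rpow_mul (height_nonneg ι t)]
      have : ((2 : ℕ) : ℝ) * -(τ / 2) = -τ := by push_cast; ring
      rw [this]
      exact ht
    constructor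
    · obtain ⟨C, hC⟩ := (h A).1
      refine ⟨Real.sqrt (max C 0), fun t ht hdt => ?_⟩
      have h3 := hC (neg t) (neg_triple ht) (hd t hdt)
      rw [height_neg h2 h5 ι, rad_neg ht.ne] at h3
      have h4 : height ι t ^ 2 ≤ (Real.sqrt (max C 0) * rad t) ^ 2 := by
        rw [mul_pow, Real.sq_sqrt (le_max_right _ _)]
        exact h3.trans (mul_le_mul_of_nonneg_right (le_max_left _ _) (by positivity))
      exact (sq_le_sq₀ (height_nonneg ι t) (mul_nonneg (Real.sqrt_nonneg _) (rad_nonneg t))).1 h4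
    · intro κ
      obtain ⟨F, hF⟩ := (h A).2 (κ ^ 2)
      refine ⟨F.image neg, fun t ht hdt hr => ?_⟩
      obtain ⟨s, hs, hu⟩ := hF (neg t) (neg_triple ht) (hd t hdt) (by
        rw [height_neg h2 h5 ι, rad_neg ht.ne, ← mul_pow]
        exact pow_le_pow_left₀ (rad_nonneg t) hr 2)
      refine ⟨neg s, Finset.mem_image_of_mem _ hs, ?_⟩
      have := neg_um hu
      rwa [neg_neg'] at this
  constructor
  · obtain ⟨E, hE, h⟩ := hnear.1
    refine ⟨E, ?_, fun ξ hξ => concl ξ (h ξ hξ)⟩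
    have e : (40 : ℝ) / 37 / τ = 20 / 37 / (τ / 2) := by
      field_simp
      norm_num
    rw [e]
    exact hE
  · intro _ μ C₀ m hμ hm
    filter_upwards [hnear.2 μ C₀ m hμ (by linarith)] with ξ hξ
    exact concl ξ hξ

end Pool.Agent.Results.MP_dc323a_nt.TriplesNearAPoint
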